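import Mathlib
import Pool.Agent.Helper5.RI.Defs
import Pool.Agent.Helper5.RI.Base
import Pool.Agent.Helper5.RI.Flow
import Pool.Agent.Helper5.RI.Comp
import Pool.Agent.Helper5.RI.Open
import Pool.Agent.Helper5.RI.Star

/-!
# Rigid isotopy of star-shaped one-oval curves

For even d >= 4 any two nonsingular real plane curves of degree d whose real locus is a star-shaped
oval in some affine chart (for instance a convex oval) are rigidly isotopic.
-/

open MvPolynomial Pool.Agent.Helper5.RI

namespace Pool.Agent.Results.MP_0eee90_ag.StarShaped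

theorem sing_iff_eval {F : MvPolynomial (Fin 3) ℝ} {x : Fin 3 → ℂ} :
    (∀ i : Fin 3, eval x (pderiv i (MvPolynomial.map (algebraMap ℝ ℂ) F)) = 0) ↔ Sing F x := by
  have h : ∀ i : Fin 3, eval x (pderiv i (MvPolynomial.map (algebraMap ℝ ℂ) F)) =
      aeval x (pderiv i F) := by
    intro i
    rw [pderiv_map, eval_map, aeval_def]
  simp only [h]
  exact Iff.rfl

theorem neg_mem_NS {d : ℕ} {c : E d} (hc : c ∈ NS d) : -c ∈ NS d := by
  intro x hx
  apply hc
  intro i
  have := hx i
  rw [toPoly_neg, map_neg, map_neg, neg_eq_zero] at this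
  exact this

theorem result (d : ℕ) (hd : Even d) (h4 : 4 ≤ d) (F G : MvPolynomial (Fin 3) ℝ)
    (hF : NonsingularForm d F) (hG : NonsingularForm d G)
    (hFs : Pool.Agent.Helper5.RI.StarShaped F) (hGs : Pool.Agent.Helper5.RI.StarShaped G) :
    ∃ c : ℝ, c ≠ 0 ∧ ∃ P : ℝ → MvPolynomial (Fin 3) ℝ,
      (∀ t : ℝ, NonsingularForm d (P t)) ∧
      (∀ m : Fin 3 →₀ ℕ, Continuous (fun t : ℝ => (P t).coeff m)) ∧
      P 0 = F ∧ P 1 = c • G := by
  have hd0 : d ≠ 0 := by omega
  have hns : ∀ H : MvPolynomial (Fin 3) ℝ, NonsingularForm d H → coefVec d H ∈ NS d := by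
    intro H hH x hx
    rw [toPoly_coefVec hH.1] at hx
    exact hH.2 x (sing_iff_eval.2 hx)
  have hU : ∀ H : MvPolynomial (Fin 3) ℝ, NonsingularForm d H → coefVec d H ∈ U d := by
    intro H hH
    have := hns H hH
    rw [NS_eq] at this
    exact this.1
  have hrel : ∀ H : MvPolynomial (Fin 3) ℝ, NonsingularForm d H →
      Pool.Agent.Helper5.RI.StarShaped H → ∃ e : ℝ, e * e = 1 ∧ Rel d (e • coefVec d H) (st d) ∧
        e • coefVec d H ∈ NS d := by
    intro H hH hs
    have h1 : Pool.Agent.Helper5.RI.StarShaped (toPoly (coefVec d H)) := by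
      rw [toPoly_coefVec hH.1]
      exact hs
    rcases star_rel hd hd0 (hU H hH) h1 with h | h
    · exact ⟨1, by norm_num, by rwa [one_smul], by rw [one_smul]; exact hns H hH⟩
    · exact ⟨-1, by norm_num, by rwa [neg_one_smul], by
        rw [neg_one_smul]
        exact neg_mem_NS (hns H hH)⟩
  obtain ⟨e, he, hre, hne⟩ := hrel F hF hFs
  obtain ⟨e', he', hre', hne'⟩ := hrel G hG hGs
  have hj := joined_NS (by omega) (hre.trans hre'.symm) hne hne'
  obtain ⟨γ, hγ⟩ := hj
  have he0 : e ≠ 0 := by
    rintro rfl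
    simp at he
  have he0' : e' ≠ 0 := by
    rintro rfl
    simp at he'
  refine ⟨e * e', mul_ne_zero he0 he0', fun t => e • toPoly (γ.extend t), ?_, ?_, ?_, ?_⟩
  · intro t
    refine ⟨?_, ?_⟩
    · show (e • toPoly (γ.extend t)).IsHomogeneous d
      rw [← toPoly_smul]
      exact toPoly_homogeneous _
    · intro x hx
      rw [sing_iff_eval] at hx
      have h1 : γ.extend t ∈ NS d := by
        have h2 : γ.extend t ∈ Set.range γ := by
          rw [← Path.extend_range]
          exact ⟨t, rfl⟩
        obtain ⟨s, hs⟩ := h2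
        rw [← hs]
        exact hγ s
      apply h1
      intro i
      have h3 : aeval x (pderiv i (e • toPoly (γ.extend t))) = 0 := hx i
      rw [Derivation.map_smul, map_smul, smul_eq_zero] at h3
      rcases h3 with h3 | h3
      · exact absurd h3 he0
      · exact h3
  · intro m
    have h1 : ∀ t : ℝ, (e • toPoly (γ.extend t)).coeff m =
        e * (if h : m ∈ idx d then γ.extend t ⟨m, h⟩ else 0) := by
      intro t
      rw [coeff_smul, coeff_toPoly, smul_eq_mul]
    simp only [h1]
    apply Continuous.mul continuous_const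
    by_cases h : m ∈ idx d
    · simp only [h, dif_pos]
      exact (continuous_apply _).comp γ.continuous_extend
    · simp only [h, dif_neg, not_false_iff]
      exact continuous_const
  · show e • toPoly (γ.extend 0) = F
    rw [γ.extend_zero, toPoly_smul, smul_smul, he, one_smul, toPoly_coefVec hF.1]
  · show e • toPoly (γ.extend 1) = _
    rw [γ.extend_one, toPoly_smul, smul_smul, toPoly_coefVec hG.1]

end Pool.Agent.Results.MP_0eee90_ag.StarShaped
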